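import Pool.Agent.Helper55.PC.Events

/-!
# Block C1 of MP_cf7fa9_pr: the seven moves (inverses, distinctness, transitivity)
-/

namespace Pool.Agent.Helper55.PC

open Finset Filter
open scoped Topology ENNReal Classical

section
variable {k r L : ℕ} [NeZero k] {R U : Type} [Group R] [AddCommGroup U] [DistribMulAction R U]
  (s q : R) (u : Idx k r → U) (x : St k r L R U)

theorem move_zero' : move s q u 0 x = (x.1, x.2.1, x.2.2.1 + 1, x.2.2.2) := by simp [move]
theorem move_one' : move s q u 1 x = (x.1, x.2.1, x.2.2.1 - 1, x.2.2.2) := by simp [move]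
theorem move_two' : move s q u 2 x = (x.1, x.2.1 + Pi.single x.2.2.1 1, x.2.2.1, x.2.2.2) := by
  simp [move]
theorem move_three' :
    move s q u 3 x = (x.1 + kb u x.2.1 x.2.2.1 x.2.2.2, x.2.1, x.2.2.1, x.2.2.2) := by simp [move]
theorem move_four' : move s q u 4 x = (x.1, x.2.1, x.2.2.1, x.2.2.2 * s) := by simp [move]
theorem move_five' : move s q u 5 x = (x.1, x.2.1, x.2.2.1, x.2.2.2 * q) := by simp [move]
theorem move_six' : move s q u 6 x = (x.1, x.2.1, x.2.2.1, x.2.2.2 * q⁻¹) := by simp [move]
end

/-- The test points are distinct. -/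
theorem tpt_inj {k L : ℕ} [NeZero k] [NeZero L] {j j' : ZMod k} {i i' : Bool}
    (h : tpt k L j i = tpt k L j' i') : j = j' ∧ i = i' := by
  have hL : 0 < L := Nat.pos_of_ne_zero (NeZero.ne L)
  have hb : ∀ (j : ZMod k) (i : Bool),
      j.val * (12 * L) + (if i then 8 * L else 4 * L) < k * (12 * L) := by
    intro j i
    have h1 : j.val + 1 ≤ k := ZMod.val_lt j
    have h2 : (j.val + 1) * (12 * L) ≤ k * (12 * L) := Nat.mul_le_mul_right _ h1
    have h3 : (if i then 8 * L else 4 * L) < 12 * L := by split_ifs <;> omega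
    rw [Nat.add_mul] at h2
    omega
  unfold tpt at h
  rw [ZMod.natCast_eq_natCast_iff', Nat.mod_eq_of_lt (hb j i), Nat.mod_eq_of_lt (hb j' i')] at h
  have e : ∀ (j : ZMod k) (i : Bool), j.val * (12 * L) + (if i then 8 * L else 4 * L) =
      (3 * j.val + (if i then 2 else 1)) * (4 * L) := by
    intro j i
    split_ifs <;> ring
  rw [e, e] at h
  have h4 : 0 < 4 * L := by omega
  have h5 := Nat.eq_of_mul_eq_mul_right h4 h
  have h6 : i = i' := by
    cases i <;> cases i' <;> simp at h5 ⊢ <;> omega
  subst h6
  have h7 : j.val = j'.val := by omega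
  exact ⟨ZMod.val_injective k h7, rfl⟩

/-- The move `b` is never trivial. -/
theorem kb_ne_zero {k r L : ℕ} [NeZero k] [NeZero L] {R U : Type} [Group R]
    [AddCommGroup U] [DistribMulAction R U] (u : Idx k r → U) (hu : ∀ i, u i ≠ 0)
    (p : Site k L → ZMod 2) (c : Site k L) (ρ : R) : kb u p c ρ ≠ 0 := by
  intro h
  set x : Site k L := c - tpt k L (0 : ZMod k) false with hx
  set f : Lbl k r := fun j v => - p (blk k r L x j v) with hf
  have hlab : labs x f p = 0 := by
    funext j v
    show - p (blk k r L x j v) + p (blk k r L x j v) = 0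
    exact neg_add_cancel _
  have h1 := congrFun h (x, f)
  have h2 : bfun u (x - c) (labs x f p) = u (0, false, 0) := by
    rw [hlab]
    have hxc : x - c = - tpt k L (0 : ZMod k) false := by rw [hx]; abel
    rw [hxc]
    unfold bfun
    rw [Finset.sum_eq_single (0 : ZMod k), Finset.sum_eq_single false]
    · rw [if_pos]
      exact ⟨rfl, le_refl _⟩
    · intro i _ hi
      rw [if_neg]
      rintro ⟨h3, -⟩
      exact hi (tpt_inj (neg_injective h3)).2.symm
    · intro h3; exact absurd (Finset.mem_univ _) h3
    · intro j _ hj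
      apply Finset.sum_eq_zero
      intro i _
      rw [if_neg]
      rintro ⟨h3, -⟩
      exact hj (tpt_inj (neg_injective h3)).1.symm
    · intro h3; exact absurd (Finset.mem_univ _) h3
  have h3 : kb u p c ρ (x, f) = ρ • u (0, false, 0) := by
    unfold kb
    rw [h2]
  rw [h3] at h1
  have h4 : u (0, false, 0) = 0 := by
    have := congrArg (fun z => ρ⁻¹ • z) h1
    simpa using this
  exact hu _ h4

/-- The left translation by `x0`. -/
def T {k r L : ℕ} {R U : Type} [Group R] [AddCommGroup U] [DistribMulAction R U]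
    (x0 x : St k r L R U) : St k r L R U :=
  (x0.1 + fun ω => x0.2.2.2 • x.1 (ω.1 - x0.2.2.1, labs ω.1 ω.2 x0.2.1),
    x0.2.1 + fun y => x.2.1 (y - x0.2.2.1), x0.2.2.1 + x.2.2.1, x0.2.2.2 * x.2.2.2)

theorem T_inj {k r L : ℕ} {R U : Type} [Group R] [AddCommGroup U] [DistribMulAction R U]
    (x0 : St k r L R U) : Function.Injective (T x0) := by
  obtain ⟨h0, p0, c0, ρ0⟩ := x0
  rintro ⟨h, p, c, ρ⟩ ⟨h', p', c', ρ'⟩ hT
  simp only [T, Prod.mk.injEq] at hT
  obtain ⟨e1, e2, e3, e4⟩ := hT
  have e3' : c = c' := add_left_cancel e3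
  have e4' : ρ = ρ' := mul_left_cancel e4
  have e2' : p = p' := by
    have e := add_left_cancel e2
    funext y
    have := congrFun e (y + c0)
    simpa using this
  have e1' : h = h' := by
    have e := add_left_cancel e1
    funext ⟨y, g⟩
    have h1 := congrFun e (y + c0, fun j v => g j v - p0 (blk k r L (y + c0) j v))
    have h2 : labs (y + c0) (fun j v => g j v - p0 (blk k r L (y + c0) j v)) p0 = g := by
      funext j v
      simp [labs]
    simp only [h2, add_sub_cancel_right] at h1
    have := congrArg (fun z => ρ0⁻¹ • z) h1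
    simpa using this
  rw [e1', e2', e3', e4']

theorem T_comm {k r L : ℕ} [NeZero k] {R U : Type} [Group R] [AddCommGroup U]
    [DistribMulAction R U] (s q : R) (u : Idx k r → U) (x0 : St k r L R U) (i : Fin 7)
    (z : St k r L R U) : T x0 (move s q u i z) = move s q u i (T x0 z) := by
  obtain ⟨h0, p0, c0, ρ0⟩ := x0
  obtain ⟨h, p, c, ρ⟩ := z
  have hi : i = 0 ∨ i = 1 ∨ i = 2 ∨ i = 3 ∨ i = 4 ∨ i = 5 ∨ i = 6 := by
    fin_cases i <;> simp
  rcases hi with hi | hi | hi | hi | hi | hi | hi <;> subst hi
  · rw [move_zero', move_zero']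
    simp only [T, add_assoc]
  · rw [move_one', move_one']
    simp only [T, Prod.mk.injEq, true_and, and_true]
    abel
  · rw [move_two', move_two']
    simp only [T, Prod.mk.injEq, true_and, and_true]
    rw [add_assoc]
    congr 1
    funext y
    simp only [Pi.add_apply]
    congr 1
    by_cases hy : y = c0 + c
    · subst hy
      simp
    · rw [Pi.single_eq_of_ne hy, Pi.single_eq_of_ne]
      intro h1
      exact hy (by rw [← h1]; abel)
  · rw [move_three', move_three']
    simp only [T, Prod.mk.injEq, and_true]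
    rw [add_assoc]
    congr 1
    funext ω
    simp only [Pi.add_apply, smul_add]
    congr 1
    unfold kb
    rw [← mul_smul]
    congr 1
    have e1 : ω.1 - c0 - c = ω.1 - (c0 + c) := by abel
    have e2 : labs (ω.1 - c0) (labs ω.1 ω.2 p0) p =
        labs ω.1 ω.2 (p0 + fun y => p (y - c0)) := by
      funext j v
      have e3 : blk k r L (ω.1 - c0) j v = blk k r L ω.1 j v - c0 := by
        unfold blk
        abel
      simp only [labs, Pi.add_apply, e3, add_assoc]
    simp only [e1, e2]
  · rw [move_four', move_four']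
    simp only [T, mul_assoc]
  · rw [move_five', move_five']
    simp only [T, mul_assoc]
  · rw [move_six', move_six']
    simp only [T, mul_assoc]

theorem T_base {k r L : ℕ} {R U : Type} [Group R] [AddCommGroup U] [DistribMulAction R U]
    (x0 : St k r L R U) : T x0 (0, 0, 0, 1) = x0 := by
  obtain ⟨h0, p0, c0, ρ0⟩ := x0
  simp only [T, Prod.mk.injEq, add_zero, mul_one, and_true]
  constructor
  · funext ω
    simp
  · funext y
    simp

theorem chain_ok {k r L : ℕ} [NeZero k] [NeZero L] {R U : Type} [Group R] [Fintype R]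
    [AddCommGroup U] [Fintype U] [DistribMulAction R U] (s q : R) (hs : s ≠ 1) (hss : s * s = 1)
    (hq : q ≠ q⁻¹) (h2 : ∀ v : U, v + v = 0) (u : Idx k r → U) (hu : ∀ i, u i ≠ 0) :
    (∀ i, ∃ j, ∀ x : St k r L R U, move s q u j (move s q u i x) = x) ∧
    (∀ i (x : St k r L R U), move s q u i x ≠ x) ∧
    (∀ x : St k r L R U, Function.Injective (fun i => move s q u i x)) ∧
    (∀ x y : St k r L R U, ∃ φ : St k r L R U → St k r L R U, Function.Injective φ ∧
      (∀ i z, φ (move s q u i z) = move s q u i (φ z)) ∧ φ x = y) := by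
  have hk : 0 < k := Nat.pos_of_ne_zero (NeZero.ne k)
  have hL : 0 < L := Nat.pos_of_ne_zero (NeZero.ne L)
  have hn : 12 ≤ k * (12 * L) := by
    have := Nat.mul_pos hk hL
    nlinarith
  have hcases : ∀ i : Fin 7, i = 0 ∨ i = 1 ∨ i = 2 ∨ i = 3 ∨ i = 4 ∨ i = 5 ∨ i = 6 := by
    intro i; fin_cases i <;> simp
  -- elementary inequalities
  have one_ne : (1 : Site k L) ≠ 0 := by
    intro h
    have h1 : ((1 : ℕ) : Site k L) = ((0 : ℕ) : Site k L) := by simpa using h
    rw [ZMod.natCast_eq_natCast_iff', Nat.mod_eq_of_lt (by omega), Nat.zero_mod] at h1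
    omega
  have two_ne : (1 : Site k L) + 1 ≠ 0 := by
    intro h
    have h1 : ((2 : ℕ) : Site k L) = ((0 : ℕ) : Site k L) := by
      push_cast
      rw [← h]; ring
    rw [ZMod.natCast_eq_natCast_iff', Nat.mod_eq_of_lt (by omega), Nat.zero_mod] at h1
    omega
  have c1 : ∀ c : Site k L, c + 1 ≠ c := fun c h => one_ne (by simpa using h)
  have c2 : ∀ c : Site k L, c - 1 ≠ c := fun c h => one_ne (by simpa using h)
  have c3 : ∀ c : Site k L, c + 1 ≠ c - 1 := fun c h => two_ne (by
    have : (1 : Site k L) + 1 = (c + 1) - (c - 1) := by ring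
    rw [this, h, sub_self])
  have pne : ∀ (p : Site k L → ZMod 2) (c : Site k L), p + Pi.single c 1 ≠ p := by
    intro p c h
    have h1 : (Pi.single c 1 : Site k L → ZMod 2) = 0 := add_eq_left.1 h
    have h3 := congrFun h1 c
    simp at h3
  have kne : ∀ (h : Site k L × Lbl k r → U) (p : Site k L → ZMod 2) (c : Site k L) (ρ : R),
      h + kb u p c ρ ≠ h := by
    intro h p c ρ h1
    exact kb_ne_zero u hu p c ρ (by simpa using h1)
  have q1 : q ≠ 1 := by
    rintro rfl
    exact hq (by simp)
  have r1 : ∀ ρ : R, ρ * s ≠ ρ := fun ρ h => hs (by simpa using h)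
  have r2 : ∀ ρ : R, ρ * q ≠ ρ := fun ρ h => q1 (by simpa using h)
  have r3 : ∀ ρ : R, ρ * q⁻¹ ≠ ρ := fun ρ h => q1 (by simpa using h)
  have sinv : s = s⁻¹ := eq_inv_of_mul_eq_one_left hss
  have r4 : ∀ ρ : R, ρ * s ≠ ρ * q := by
    intro ρ h
    have h1 : s = q := mul_left_cancel h
    exact hq (by rw [← h1]; exact sinv)
  have r5 : ∀ ρ : R, ρ * s ≠ ρ * q⁻¹ := by
    intro ρ h
    have h1 : s = q⁻¹ := mul_left_cancel h
    apply hq
    have h3 : s⁻¹ = q := by rw [h1, inv_inv]
    rw [← h1, ← h3]
    exact sinv.symm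
  have r6 : ∀ ρ : R, ρ * q ≠ ρ * q⁻¹ := fun ρ h => hq (mul_left_cancel h)
  refine ⟨?_, ?_, ?_, ?_⟩
  · intro i
    rcases hcases i with h | h | h | h | h | h | h <;> subst h
    · refine ⟨1, fun x => ?_⟩
      rw [move_zero', move_one']
      simp
    · refine ⟨0, fun x => ?_⟩
      rw [move_one', move_zero']
      simp
    · refine ⟨2, fun x => ?_⟩
      rw [move_two', move_two']
      obtain ⟨h, p, c, ρ⟩ := x
      simp only [Prod.mk.injEq, true_and, and_true]
      rw [add_assoc]
      have : (Pi.single c 1 : Site k L → ZMod 2) + Pi.single c 1 = 0 := by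
        rw [← Pi.single_add]
        have : (1 : ZMod 2) + 1 = 0 := by decide
        rw [this, Pi.single_zero]
      rw [this, add_zero]
    · refine ⟨3, fun x => ?_⟩
      rw [move_three', move_three']
      obtain ⟨h, p, c, ρ⟩ := x
      simp only [Prod.mk.injEq, and_true]
      funext ω
      simp only [Pi.add_apply]
      rw [add_assoc, h2, add_zero]
    · refine ⟨4, fun x => ?_⟩
      rw [move_four', move_four']
      obtain ⟨h, p, c, ρ⟩ := x
      simp only [mul_assoc, hss, mul_one]
    · refine ⟨6, fun x => ?_⟩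
      rw [move_five', move_six']
      obtain ⟨h, p, c, ρ⟩ := x
      simp
    · refine ⟨5, fun x => ?_⟩
      rw [move_six', move_five']
      obtain ⟨h, p, c, ρ⟩ := x
      simp
  · intro i x
    obtain ⟨h, p, c, ρ⟩ := x
    rcases hcases i with hi | hi | hi | hi | hi | hi | hi <;> subst hi
    · rw [move_zero']
      intro e
      exact c1 c (congrArg (fun z => z.2.2.1) e)
    · rw [move_one']
      intro e
      exact c2 c (congrArg (fun z => z.2.2.1) e)
    · rw [move_two']
      intro e
      exact pne p c (congrArg (fun z => z.2.1) e)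
    · rw [move_three']
      intro e
      exact kne h p c ρ (congrArg (fun z => z.1) e)
    · rw [move_four']
      intro e
      exact r1 ρ (congrArg (fun z => z.2.2.2) e)
    · rw [move_five']
      intro e
      exact r2 ρ (congrArg (fun z => z.2.2.2) e)
    · rw [move_six']
      intro e
      exact r3 ρ (congrArg (fun z => z.2.2.2) e)
  · rintro ⟨h, p, c, ρ⟩
    have key : ∀ i j : Fin 7, i < j →
        move s q u i ((h, p, c, ρ) : St k r L R U) ≠ move s q u j (h, p, c, ρ) := by
      intro i j hij
      rcases hcases i with hi | hi | hi | hi | hi | hi | hi <;>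
      rcases hcases j with hj | hj | hj | hj | hj | hj | hj <;> subst hi <;> subst hj <;>
      first
      | exact absurd hij (by decide)
      | skip
      all_goals
        simp only [move_zero', move_one', move_two', move_three', move_four', move_five',
          move_six']
        intro e
        first
        | exact c3 c (congrArg (fun z => z.2.2.1) e)
        | exact c1 c (congrArg (fun z => z.2.2.1) e)
        | exact c2 c (congrArg (fun z => z.2.2.1) e)
        | exact pne p c (congrArg (fun z => z.2.1) e)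
        | exact kne h p c ρ (congrArg (fun z => z.1) e)
        | exact r4 ρ (congrArg (fun z => z.2.2.2) e)
        | exact r5 ρ (congrArg (fun z => z.2.2.2) e)
        | exact r6 ρ (congrArg (fun z => z.2.2.2) e)
    intro i j e
    rcases lt_trichotomy i j with hij | hij | hij
    · exact absurd e (key i j hij)
    · exact hij
    · exact absurd e.symm (key j i hij)
  · intro x y
    have hbij : Function.Bijective (T x : St k r L R U → St k r L R U) :=
      Finite.injective_iff_bijective.1 (T_inj x)
    let e := Equiv.ofBijective _ hbij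
    have he : ∀ z, e z = T x z := fun z => rfl
    refine ⟨fun z => T y (e.symm z), (T_inj y).comp e.symm.injective, ?_, ?_⟩
    · intro i z
      have h1 : e.symm (move s q u i z) = move s q u i (e.symm z) := by
        rw [Equiv.symm_apply_eq, he, T_comm, ← he, Equiv.apply_symm_apply]
      show T y (e.symm (move s q u i z)) = move s q u i (T y (e.symm z))
      rw [h1, T_comm]
    · have h1 : e.symm x = (0, 0, 0, 1) := by
        rw [Equiv.symm_apply_eq, he, T_base]
      show T y (e.symm x) = y
      rw [h1, T_base]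

end Pool.Agent.Helper55.PC
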